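import Pool.Agent.Helper5.Camp.Base

/-!
# Elliptic curves with one orbifold point reduce to the projective line with four orbifold points
-/

set_option autoImplicit false

namespace Pool.Agent.Results.MP_464c42_nt.EllipticReduction

open NumberField IsDedekindDomain OnePoint Polynomial
open Pool.Agent.Helper5.Camp

/-- The `S`-integral Campana points of `(E, (1 - 1 / m) [O])`, on a Weierstrass model: the affine
points `(x, y)` of `E` such that at each finite place `v` outside `S` where `x` is not integral,
`ord_v x ≤ -2 m` (the intersection number of the point with `O` being `-ord_v x / 2`). -/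
def campanaE {K : Type} [Field K] [NumberField K] (E : WeierstrassCurve K) (m : ℕ∞)
    (S : Set (HeightOneSpectrum (𝓞 K))) : Set (K × K) :=
  {P | E.toAffine.Equation P.1 P.2 ∧
    ∀ v ∉ S, ordv v P.1 < 0 → 2 * m ≤ ((-ordv v P.1).toNat : ℕ∞)}

/-- Orbifold Mordell for `(E, (1 - 1 / m) [O])`. -/
def MordellE {K : Type} [Field K] [NumberField K] (E : WeierstrassCurve K) (m : ℕ∞) : Prop :=
  ∀ S : Set (HeightOneSpectrum (𝓞 K)), S.Finite → (campanaE E m S).Finite

/-- Four points `0, 1, a, ∞`. -/
abbrev pts4 {K : Type} [Field K] (a : K) : Fin 4 → OnePoint K :=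
  ![OnePoint.some 0, OnePoint.some 1, OnePoint.some a, ∞]

lemma four {L : Type} [Field L] [NumberField L]
    (h : ∀ a : L, a ≠ 0 → a ≠ 1 → Mordell (pts4 a) ![2, 2, 2, 4])
    {e : Fin 3 → L} (he : Function.Injective e) :
    Mordell ![OnePoint.some (e 0), OnePoint.some (e 1), OnePoint.some (e 2), ∞] ![2, 2, 2, 4] := by
  have hne : ∀ i j : Fin 3, i ≠ j → (OnePoint.some (e i) : OnePoint L) ≠ OnePoint.some (e j) :=
    fun i j hij h => hij (he (OnePoint.coe_injective h))
  obtain ⟨g, hg, g0, g1, g3⟩ := exists_good (hne 0 1 (by decide))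
    (OnePoint.coe_ne_infty (e 0)) (OnePoint.coe_ne_infty (e 1))
  obtain ⟨a, ha⟩ := OnePoint.ne_infty_iff_exists.mp (show g (OnePoint.some (e 2)) ≠ ∞ by
    rw [← g3]; exact fun h => OnePoint.coe_ne_infty _ (hg.inj h))
  have ha0 : a ≠ 0 := by
    rintro rfl
    exact hne 2 0 (by decide) (hg.inj (by rw [← ha, g0]))
  have ha1 : a ≠ 1 := by
    rintro rfl
    exact hne 2 1 (by decide) (hg.inj (by rw [← ha, g1]))
  refine Mordell.of_good hg ?_
  have hpts : (fun j => g ((![OnePoint.some (e 0), OnePoint.some (e 1), OnePoint.some (e 2), ∞] :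
      Fin 4 → OnePoint L) j)) = pts4 a := by
    funext j
    fin_cases j
    · exact g0
    · exact g1
    · exact ha.symm
    · exact g3
  rw [hpts]
  exact h a ha0 ha1

lemma enat2 {n : ℕ} (h : 2 ≤ n) : (2 : ℕ∞) ≤ (n : ℕ∞) := by exact_mod_cast h

lemma enat4 {n : ℕ} (h : 4 ≤ n) : (4 : ℕ∞) ≤ (n : ℕ∞) := by exact_mod_cast h

/-- The main step, over a field `L` in which the two-torsion polynomial splits. -/
lemma main {K L : Type} [Field K] [NumberField K] [Field L] [NumberField L] [Algebra K L]
    {e : Fin 3 → L} (he : Function.Injective e)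
    (h : Mordell ![OnePoint.some (e 0), OnePoint.some (e 1), OnePoint.some (e 2), ∞] ![2, 2, 2, 4])
    {S : Set (HeightOneSpectrum (𝓞 K))} (hS : S.Finite) :
    {x : K | (∃ Y : K, algebraMap K L (Y ^ 2) = 4 * ((algebraMap K L x - e 0) *
        (algebraMap K L x - e 1) * (algebraMap K L x - e 2))) ∧
      ∀ v ∉ S, ordv v x < 0 → 4 ≤ (-ordv v x).toNat}.Finite := by
  classical
  -- bad places
  set T : Set (HeightOneSpectrum (𝓞 L)) := {w | w.under (𝓞 K) ∈ S} ∪
    ({w | ordv w (4 : L) ≠ 0} ∪ ((⋃ i, {w | ordv w (e i) ≠ 0}) ∪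
      ⋃ i, ⋃ j, {w | ordv w (e i - e j) ≠ 0})) with hT
  have hTf : T.Finite := by
    refine (finite_above hS).union ((finite_ordv_ne _).union ((Set.finite_iUnion fun i =>
      finite_ordv_ne _).union (Set.finite_iUnion fun i => Set.finite_iUnion fun j =>
        finite_ordv_ne _)))
  have hfin := h T hTf
  have hinj : Function.Injective fun x : K => (OnePoint.some (algebraMap K L x) : OnePoint L) :=
    fun x y hxy => (algebraMap K L).injective (OnePoint.coe_injective hxy)
  have hroots : {x : K | ∃ i, algebraMap K L x = e i}.Finite := by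
    have : {x : K | ∃ i, algebraMap K L x = e i} = algebraMap K L ⁻¹' (Set.range e) := by
      ext x; simp [eq_comm]
    rw [this]
    exact (Set.finite_range e).preimage (algebraMap K L).injective.injOn
  refine ((hfin.preimage hinj.injOn).union hroots).subset ?_
  rintro x ⟨⟨Y, hY⟩, hx⟩
  by_cases hr : ∃ i, algebraMap K L x = e i
  · exact Or.inr hr
  left
  push Not at hr
  set t := algebraMap K L x with ht
  have hsub : ∀ i, t - e i ≠ 0 := fun i => sub_ne_zero.mpr (hr i)
  have hY0 : Y ≠ 0 := by
    rintro rfl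
    rw [zero_pow two_ne_zero, map_zero] at hY
    exact mul_ne_zero (by norm_num) (mul_ne_zero (mul_ne_zero (hsub 0) (hsub 1)) (hsub 2)) hY.symm
  -- local analysis
  have loc : ∀ w ∉ T, (∀ i, 0 < inter w (OnePoint.some t) (OnePoint.some (e i)) →
      2 ≤ (inter w (OnePoint.some t) (OnePoint.some (e i))).toNat) ∧
      (0 < inter w (OnePoint.some t) ∞ → 4 ≤ (inter w (OnePoint.some t) ∞).toNat) := by
    intro w hw
    have w1 : w.under (𝓞 K) ∉ S := fun hc => hw (Or.inl hc)
    have w2 : ordv w (4 : L) = 0 := by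
      by_contra hc; exact hw (Or.inr (Or.inl hc))
    have w3 : ∀ i, ordv w (e i) = 0 := by
      intro i
      by_contra hc; exact hw (Or.inr (Or.inr (Or.inl (Set.mem_iUnion.mpr ⟨i, hc⟩))))
    have w4 : ∀ i j, ordv w (e i - e j) = 0 := by
      intro i j
      by_contra hc
      exact hw (Or.inr (Or.inr (Or.inr (Set.mem_iUnion.mpr ⟨i, Set.mem_iUnion.mpr ⟨j, hc⟩⟩))))
    obtain ⟨ee, hee, hbase⟩ := ordv_base (K := K) w
    have hee' : (1 : ℤ) ≤ ee := by exact_mod_cast hee
    have hmin : ∀ i, min 0 (ordv w (t - e i)) = min 0 (ordv w t) := by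
      intro i
      have := min_ordv_add w (-(e i)) t (by rw [ordv_neg, w3])
      rwa [← sub_eq_add_neg] at this
    constructor
    · intro i hpos
      simp only [inter, w3] at hpos ⊢
      have hA0 : 0 ≤ ordv w t := by
        by_contra hc
        have := hmin i
        omega
      have hpos' : 0 < ordv w (t - e i) := by omega
      have hother : ∀ j, j ≠ i → ordv w (t - e j) = 0 := by
        intro j hj
        have h1 : 0 ≤ ordv w (t - e j) := by
          have := hmin j
          omega
        have hne : e i - e j ≠ 0 := sub_ne_zero.mpr fun hc => hj (he hc).symm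
        have h2 := ordv_sub w (hsub j) (hsub i) (by rw [sub_sub_sub_cancel_left]; exact hne)
        rw [sub_sub_sub_cancel_left, w4] at h2
        omega
      have hord : (ee : ℤ) * (2 * ordv (w.under (𝓞 K)) Y) =
          ordv w (t - e 0) + ordv w (t - e 1) + ordv w (t - e 2) := by
        rw [← ordv_sq, ← hbase, hY, ordv_mul w (by norm_num)
          (mul_ne_zero (mul_ne_zero (hsub 0) (hsub 1)) (hsub 2)),
          ordv_mul w (mul_ne_zero (hsub 0) (hsub 1)) (hsub 2), ordv_mul w (hsub 0) (hsub 1), w2]
        ring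
      have heven : (ee : ℤ) * (2 * ordv (w.under (𝓞 K)) Y) = ordv w (t - e i) := by
        rw [hord]
        fin_cases i
        · have a1 := hother 1 (by decide)
          have a2 := hother 2 (by decide)
          simp only [Fin.zero_eta] at *
          omega
        · have a1 := hother 0 (by decide)
          have a2 := hother 2 (by decide)
          simp only [Fin.mk_one] at *
          omega
        · have a1 := hother 0 (by decide)
          have a2 := hother 1 (by decide)
          simp only [Fin.reduceFinMk] at *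
          omega
      have h2 : ordv w (t - e i) = 2 * (ee * ordv (w.under (𝓞 K)) Y) := by rw [← heven]; ring
      omega
    · intro hpos
      simp only [inter, ht, hbase] at hpos ⊢
      set z := ordv (w.under (𝓞 K)) x with hz
      have hz0 : z < 0 := by
        by_contra hc
        have : 0 ≤ (ee : ℤ) * z := mul_nonneg (by omega) (by omega)
        omega
      have h4 := hx _ w1 hz0
      have h3 : (ee : ℤ) * z ≤ z := by nlinarith
      omega
  intro i
  have hcase : ∀ j : Fin 3, OnePoint.some t ≠ (OnePoint.some (e j) : OnePoint L) :=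
    fun j hc => hr j (OnePoint.coe_injective hc)
  fin_cases i
  · exact ⟨hcase 0, fun w hw hp => enat2 ((loc w hw).1 0 hp)⟩
  · exact ⟨hcase 1, fun w hw hp => enat2 ((loc w hw).1 1 hp)⟩
  · exact ⟨hcase 2, fun w hw hp => enat2 ((loc w hw).1 2 hp)⟩
  · exact ⟨OnePoint.coe_ne_infty _, fun w hw hp => enat4 ((loc w hw).2 hp)⟩

lemma finite_y {K : Type} [Field K] (E : WeierstrassCurve K) (x : K) :
    {y : K | E.toAffine.Equation x y}.Finite := by
  classical
  set p : K[X] := X ^ 2 + (C (E.a₁ * x + E.a₃) * X + C (-(x ^ 3 + E.a₂ * x ^ 2 + E.a₄ * x + E.a₆)))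
    with hp
  have hmonic : p.Monic := by
    refine monic_X_pow_add (n := 2) ?_
    exact (degree_linear_le).trans_lt (by norm_num)
  refine (Finset.finite_toSet p.roots.toFinset).subset ?_
  intro y hy
  rw [Set.mem_ofPred_eq, WeierstrassCurve.Affine.equation_iff'] at hy
  rw [Finset.mem_coe, Multiset.mem_toFinset, mem_roots hmonic.ne_zero, IsRoot.def, hp]
  simp only [eval_add, eval_pow, eval_X, eval_mul, eval_C]
  linear_combination hy

/-- **Reduction of the case of elliptic curves with one orbifold point.** -/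
theorem result
    (h : ∀ (K : Type) [Field K] [NumberField K] (a : K), a ≠ 0 → a ≠ 1 →
      Mordell (pts4 a) ![2, 2, 2, 4]) :
    ∀ (K : Type) [Field K] [NumberField K] (E : WeierstrassCurve K) [E.IsElliptic] (m : ℕ∞),
      2 ≤ m → MordellE E m := by
  intro K _ _ E hE m hm S hS
  classical
  set P := E.twoTorsionPolynomial with hP
  have ha : P.a ≠ 0 := by
    rw [hP]; simp [WeierstrassCurve.twoTorsionPolynomial]
  let L := P.toPoly.SplittingField
  have : NumberField L := NumberField.of_module_finite K L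
  set φ := algebraMap K L with hφ
  obtain ⟨x1, x2, x3, hx⟩ := (Cubic.splits_iff_roots_eq_three (φ := φ) ha).mp
    (SplittingField.splits P.toPoly)
  have hdisc : P.discr ≠ 0 :=
    E.twoTorsionPolynomial_discr_ne_zero (isUnit_iff_ne_zero.mpr two_ne_zero) E.isUnit_Δ
  obtain ⟨h12, h13, h23⟩ := (Cubic.discr_ne_zero_iff_roots_ne ha hx).mp hdisc
  have hprod := Cubic.eq_prod_three_roots ha hx
  set e : Fin 3 → L := ![x1, x2, x3] with he
  have hinj : Function.Injective e := by
    intro i j hij
    fin_cases i <;> fin_cases j <;> simp_all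
  have hfin := main (K := K) hinj (four (h L) hinj) hS
  -- finitely many `x`, and finitely many `y` for each
  refine (Set.Finite.biUnion hfin fun x _ => (finite_y E x).image fun y => (x, y)).subset ?_
  rintro ⟨x, y⟩ ⟨hxy, hloc⟩
  refine Set.mem_biUnion (x := x) ⟨⟨2 * y + E.a₁ * x + E.a₃, ?_⟩, ?_⟩ ⟨y, hxy, rfl⟩
  · have h1 := congrArg (eval (φ x)) hprod
    rw [Cubic.map_toPoly, eval_map_algebraMap, aeval_algebraMap_apply, coe_aeval_eq_eval] at h1
    simp only [eval_mul, eval_sub, eval_X, eval_C] at h1
    have h2 : (2 * y + E.a₁ * x + E.a₃) ^ 2 = P.toPoly.eval x := by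
      rw [WeierstrassCurve.Affine.equation_iff'] at hxy
      simp only [hP, WeierstrassCurve.twoTorsionPolynomial, Cubic.toPoly, eval_add, eval_mul,
        eval_pow, eval_X, eval_C, WeierstrassCurve.b₂, WeierstrassCurve.b₄, WeierstrassCurve.b₆]
      linear_combination 4 * hxy
    rw [h2, h1]
    have h5 : P.a = 4 := rfl
    have h4 : φ P.a = 4 := by
      rw [h5]; exact map_ofNat φ 4
    rw [h4]
    simp only [he, Matrix.cons_val_zero, Matrix.cons_val_one, Matrix.cons_val]
    ring
  · intro v hv hneg
    have h1 := hloc v hv hneg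
    have h2 : ((4 : ℕ) : ℕ∞) ≤ ((-ordv v x).toNat : ℕ∞) := by
      refine le_trans ?_ h1
      calc ((4 : ℕ) : ℕ∞) = 2 * 2 := by norm_num
        _ ≤ 2 * m := by gcongr
    exact_mod_cast h2

end Pool.Agent.Results.MP_464c42_nt.EllipticReduction
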