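import Pool.Agent.Helper5.Camp.Three
import Pool.Agent.Helper5.Camp.Transfer

/-!
# Orbifold Mordell on the projective line reduces to four families
-/

set_option autoImplicit false

namespace Pool.Agent.Results.MP_464c42_nt.GenusZeroReduction

open NumberField IsDedekindDomain OnePoint Polynomial
open Pool.Agent.Helper5.Camp

/-- The coefficient `1 - 1 / m` of a multiplicity `m ∈ {2, 3, …} ∪ {∞}`, with `1 / ∞ = 0`. -/
noncomputable def wt (m : ℕ∞) : ℝ := if m = ⊤ then 1 else 1 - 1 / (m.toNat : ℝ)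

lemma wt_le_one (m : ℕ∞) : wt m ≤ 1 := by
  unfold wt
  split_ifs
  · exact le_rfl
  · have : (0 : ℝ) ≤ 1 / (m.toNat : ℝ) := by positivity
    linarith

lemma wt_le {m : ℕ∞} (hm : 2 ≤ m) {n : ℕ} (h : m ≤ n) : wt m ≤ 1 - 1 / (n : ℝ) := by
  have hne : m ≠ ⊤ := by
    intro h0; rw [h0] at h; exact absurd h (by simp)
  obtain ⟨k, rfl⟩ := ENat.ne_top_iff_exists.mp hne
  have h2 : 2 ≤ k := by exact_mod_cast hm
  have hk : k ≤ n := by exact_mod_cast h
  unfold wt
  rw [if_neg hne, ENat.toNat_natCast]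
  have : (1 : ℝ) / n ≤ 1 / k :=
    one_div_le_one_div_of_le (by positivity) (by exact_mod_cast hk)
  linarith

lemma le_of_not_ge {m : ℕ∞} {n : ℕ} (h : ¬ ((n + 1 : ℕ) : ℕ∞) ≤ m) : m ≤ n := by
  rw [not_le] at h
  have hne : m ≠ ⊤ := h.ne_top
  obtain ⟨k, rfl⟩ := ENat.ne_top_iff_exists.mp hne
  have : k < n + 1 := by exact_mod_cast h
  exact_mod_cast Nat.lt_succ_iff.mp this

lemma wt2 : wt 2 = 1 / 2 := by
  unfold wt; rw [if_neg (by decide)]; norm_num

lemma wt3 : wt 3 = 2 / 3 := by
  unfold wt; rw [if_neg (by decide)]; norm_num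

lemma wt4 : wt 4 = 3 / 4 := by
  unfold wt; rw [if_neg (by decide)]; norm_num

lemma wt5 : wt 5 = 4 / 5 := by
  unfold wt; rw [if_neg (by decide)]; norm_num

lemma wt7 : wt 7 = 6 / 7 := by
  unfold wt; rw [if_neg (by decide)]; norm_num

/-- The minimal hyperbolic triples. -/
lemma triple {p q w : ℕ∞} (hpq : p ≤ q) (hqw : q ≤ w) (hp : 2 ≤ p)
    (h : 2 < wt p + wt q + wt w) :
    (3 ≤ q ∧ 7 ≤ w) ∨ (4 ≤ q ∧ 5 ≤ w) ∨ (3 ≤ p ∧ 3 ≤ q ∧ 4 ≤ w) := by
  have hq : 2 ≤ q := hp.trans hpq
  have hw : 2 ≤ w := hq.trans hqw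
  have hw1 := wt_le_one w
  have hq3 : 3 ≤ q := by
    by_contra hc
    have h1 : q ≤ (2 : ℕ) := le_of_not_ge (by exact_mod_cast hc)
    have h2 := wt_le hq h1
    have h3 := wt_le hp (hpq.trans h1)
    norm_num at h2 h3
    linarith
  by_cases hp3 : 3 ≤ p
  · right; right
    refine ⟨hp3, hq3, ?_⟩
    by_contra hc
    have h1 : w ≤ (3 : ℕ) := le_of_not_ge (by exact_mod_cast hc)
    have h2 := wt_le hw h1
    have h3 := wt_le hq (hqw.trans h1)
    have h4 := wt_le hp ((hpq.trans hqw).trans h1)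
    norm_num at h2 h3 h4
    linarith
  · have hp2 : p ≤ (2 : ℕ) := le_of_not_ge (by exact_mod_cast hp3)
    have h4 := wt_le hp hp2
    by_cases hq4 : 4 ≤ q
    · right; left
      refine ⟨hq4, ?_⟩
      by_contra hc
      have h1 : w ≤ (4 : ℕ) := le_of_not_ge (by exact_mod_cast hc)
      have h2 := wt_le hw h1
      have h3 := wt_le hq (hqw.trans h1)
      norm_num at h2 h3 h4
      linarith
    · left
      refine ⟨hq3, ?_⟩
      have hq3' : q ≤ (3 : ℕ) := le_of_not_ge (by exact_mod_cast hq4)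
      by_contra hc
      have h1 : w ≤ (6 : ℕ) := le_of_not_ge (by exact_mod_cast hc)
      have h2 := wt_le hw h1
      have h3 := wt_le hq hq3'
      norm_num at h2 h3 h4
      linarith

/-- The pair with three points `0, 1, ∞`. -/
abbrev pts3 (K : Type) [Field K] : Fin 3 → OnePoint K :=
  ![OnePoint.some 0, OnePoint.some 1, ∞]

/-- Four points `0, 1, a, ∞`. -/
abbrev pts4 {K : Type} [Field K] (a : K) : Fin 4 → OnePoint K :=
  ![OnePoint.some 0, OnePoint.some 1, OnePoint.some a, ∞]

/-- Five points `0, 1, a, b, ∞`. -/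
abbrev pts5 {K : Type} [Field K] (a b : K) : Fin 5 → OnePoint K :=
  ![OnePoint.some 0, OnePoint.some 1, OnePoint.some a, OnePoint.some b, ∞]

lemma pts3_inj (K : Type) [Field K] : Function.Injective (pts3 K) := by
  unfold pts3 Matrix.vecCons
  simp only [Fin.cons_injective_iff]
  simp only [Set.mem_range, Fin.exists_fin_succ, IsEmpty.exists_iff, or_false, Fin.cons_zero,
    Fin.cons_succ, OnePoint.infty_ne_coe, OnePoint.coe_eq_coe, one_ne_zero, not_false_eq_true,
    true_and]
  exact Function.injective_of_subsingleton _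

lemma pts4_inj {K : Type} [Field K] {a : K} (ha0 : a ≠ 0) (ha1 : a ≠ 1) :
    Function.Injective (pts4 a) := by
  unfold pts4 Matrix.vecCons
  simp only [Fin.cons_injective_iff]
  simp only [Set.mem_range, Fin.exists_fin_succ, IsEmpty.exists_iff, or_false, Fin.cons_zero,
    Fin.cons_succ, OnePoint.infty_ne_coe, OnePoint.coe_eq_coe, one_ne_zero, not_false_eq_true,
    true_and, ha0, ha1]
  exact Function.injective_of_subsingleton _

lemma pts5_inj {K : Type} [Field K] {a b : K} (ha0 : a ≠ 0) (ha1 : a ≠ 1) (hb0 : b ≠ 0)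
    (hb1 : b ≠ 1) (hab : a ≠ b) : Function.Injective (pts5 a b) := by
  unfold pts5 Matrix.vecCons
  simp only [Fin.cons_injective_iff]
  simp only [Set.mem_range, Fin.exists_fin_succ, IsEmpty.exists_iff, or_false, Fin.cons_zero,
    Fin.cons_succ, OnePoint.infty_ne_coe, OnePoint.coe_eq_coe, one_ne_zero, not_false_eq_true,
    true_and, ha0, ha1, hb0, hb1, hab.symm]
  exact Function.injective_of_subsingleton _

lemma three {K : Type} [Field K] [NumberField K] (h1 : Mordell (pts3 K) ![2, 3, 7])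
    (h2 : Mordell (pts3 K) ![2, 4, 5]) (P : Fin 3 → OnePoint K) (hP : Function.Injective P)
    (m : Fin 3 → ℕ∞) (hm : ∀ i, 2 ≤ m i) (hs : 2 < ∑ i, wt (m i)) : Mordell P m := by
  set σ := Tuple.sort m with hσ
  have hmono : Monotone (m ∘ σ) := Tuple.monotone_sort m
  have h01 : m (σ 0) ≤ m (σ 1) := hmono (by decide)
  have h12 : m (σ 1) ≤ m (σ 2) := hmono (by decide)
  have hsum : 2 < wt (m (σ 0)) + wt (m (σ 1)) + wt (m (σ 2)) := by
    have : ∑ i, wt (m i) = ∑ i, wt (m (σ i)) := (Equiv.sum_comp σ fun i => wt (m i)).symm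
    rw [this, Fin.sum_univ_three] at hs
    exact hs
  have hne : ∀ i j : Fin 3, i ≠ j → P (σ i) ≠ P (σ j) := fun i j hij h =>
    hij (σ.injective (hP h))
  obtain ⟨g, hg, g0, g1, g2⟩ := exists_good (hne 0 1 (by decide)) (hne 0 2 (by decide))
    (hne 1 2 (by decide))
  have hpts : (fun j => g (P (σ j))) = pts3 K := by
    funext j
    fin_cases j
    · exact g0
    · exact g1
    · exact g2
  have main : ∀ m' : Fin 3 → ℕ∞, (∀ j, m' j ≤ m (σ j)) → Mordell (pts3 K) m' → Mordell P m := by
    intro m' hm' h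
    refine Mordell.of_sub (φ := σ) hm' (Mordell.of_good hg ?_)
    rw [hpts]; exact h
  rcases triple h01 h12 (hm _) hsum with h | h | h
  · refine main ![2, 3, 7] ?_ h1
    intro j; fin_cases j
    · exact hm _
    · exact h.1
    · exact h.2
  · refine main ![2, 4, 5] ?_ h2
    intro j; fin_cases j
    · exact hm _
    · exact h.1
    · exact h.2
  · refine main ![3, 3, 4] ?_ (mordell_334 h1)
    intro j; fin_cases j
    · exact h.1
    · exact h.2.1
    · exact h.2.2

lemma four {K : Type} [Field K] [NumberField K]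
    (h3 : ∀ a : K, a ≠ 0 → a ≠ 1 → Mordell (pts4 a) ![2, 2, 2, 3])
    (P : Fin 4 → OnePoint K) (hP : Function.Injective P)
    (m : Fin 4 → ℕ∞) (hm : ∀ i, 2 ≤ m i) (hs : 2 < ∑ i, wt (m i)) : Mordell P m := by
  obtain ⟨i0, hi0⟩ : ∃ i, 3 ≤ m i := by
    by_contra hc
    push Not at hc
    have : ∑ i, wt (m i) ≤ ∑ _i : Fin 4, (1 / 2 : ℝ) := by
      refine Finset.sum_le_sum fun i _ => ?_
      have h1 : m i ≤ (2 : ℕ) := le_of_not_ge (by exact_mod_cast (not_le.mpr (hc i)))
      have h2 := wt_le (hm i) h1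
      norm_num at h2 ⊢
      exact h2
    norm_num at this
    linarith
  set σ : Equiv.Perm (Fin 4) := Equiv.swap i0 3 with hσ
  have hσ3 : σ 3 = i0 := by rw [hσ, Equiv.swap_apply_right]
  have hne : ∀ i j : Fin 4, i ≠ j → P (σ i) ≠ P (σ j) := fun i j hij h =>
    hij (σ.injective (hP h))
  obtain ⟨g, hg, g0, g1, g3⟩ := exists_good (hne 0 1 (by decide)) (hne 0 3 (by decide))
    (hne 1 3 (by decide))
  have hne' : ∀ i j : Fin 4, i ≠ j → g (P (σ i)) ≠ g (P (σ j)) := fun i j hij h =>
    hne i j hij (hg.inj h)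
  obtain ⟨a, ha⟩ := OnePoint.ne_infty_iff_exists.mp (show g (P (σ 2)) ≠ ∞ by
    rw [← g3]; exact hne' 2 3 (by decide))
  have ha0 : a ≠ 0 := by
    rintro rfl
    exact hne' 2 0 (by decide) (by rw [← ha, g0])
  have ha1 : a ≠ 1 := by
    rintro rfl
    exact hne' 2 1 (by decide) (by rw [← ha, g1])
  have hpts : (fun j => g (P (σ j))) = pts4 a := by
    funext j
    fin_cases j
    · exact g0
    · exact g1
    · exact ha.symm
    · exact g3
  refine Mordell.of_sub (φ := σ) (m' := ![2, 2, 2, 3]) ?_ (Mordell.of_good hg ?_)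
  · intro j; fin_cases j
    · exact hm _
    · exact hm _
    · exact hm _
    · change (3 : ℕ∞) ≤ m (σ 3)
      rw [hσ3]; exact hi0
  · rw [hpts]; exact h3 a ha0 ha1

lemma five {K : Type} [Field K] [NumberField K]
    (h4 : ∀ a b : K, a ≠ 0 → a ≠ 1 → b ≠ 0 → b ≠ 1 → a ≠ b →
      Mordell (pts5 a b) ![2, 2, 2, 2, 2]) {r : ℕ} (hr : 5 ≤ r)
    (P : Fin r → OnePoint K) (hP : Function.Injective P)
    (m : Fin r → ℕ∞) (hm : ∀ i, 2 ≤ m i) : Mordell P m := by
  set σ : Fin 5 → Fin r := Fin.castLE hr with hσ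
  have hσi : Function.Injective σ := Fin.castLE_injective hr
  have hne : ∀ i j : Fin 5, i ≠ j → P (σ i) ≠ P (σ j) := fun i j hij h =>
    hij (hσi (hP h))
  obtain ⟨g, hg, g0, g1, g4⟩ := exists_good (hne 0 1 (by decide)) (hne 0 4 (by decide))
    (hne 1 4 (by decide))
  have hne' : ∀ i j : Fin 5, i ≠ j → g (P (σ i)) ≠ g (P (σ j)) := fun i j hij h =>
    hne i j hij (hg.inj h)
  obtain ⟨a, ha⟩ := OnePoint.ne_infty_iff_exists.mp (show g (P (σ 2)) ≠ ∞ by
    rw [← g4]; exact hne' 2 4 (by decide))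
  obtain ⟨b, hb⟩ := OnePoint.ne_infty_iff_exists.mp (show g (P (σ 3)) ≠ ∞ by
    rw [← g4]; exact hne' 3 4 (by decide))
  have ha0 : a ≠ 0 := by
    rintro rfl
    exact hne' 2 0 (by decide) (by rw [← ha, g0])
  have ha1 : a ≠ 1 := by
    rintro rfl
    exact hne' 2 1 (by decide) (by rw [← ha, g1])
  have hb0 : b ≠ 0 := by
    rintro rfl
    exact hne' 3 0 (by decide) (by rw [← hb, g0])
  have hb1 : b ≠ 1 := by
    rintro rfl
    exact hne' 3 1 (by decide) (by rw [← hb, g1])
  have hab : a ≠ b := by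
    rintro rfl
    exact hne' 2 3 (by decide) (by rw [← ha, ← hb])
  have hpts : (fun j => g (P (σ j))) = pts5 a b := by
    funext j
    fin_cases j
    · exact g0
    · exact g1
    · exact ha.symm
    · exact hb.symm
    · exact g4
  refine Mordell.of_sub (φ := σ) (m' := ![2, 2, 2, 2, 2]) ?_ (Mordell.of_good hg ?_)
  · intro j
    have : (![2, 2, 2, 2, 2] : Fin 5 → ℕ∞) j = 2 := by fin_cases j <;> rfl
    rw [this]; exact hm _
  · rw [hpts]; exact h4 a b ha0 ha1 hb0 hb1 hab

lemma of_injective {K : Type} [Field K] : Function.Injective (ClosedPt.of : OnePoint K → _) := by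
  intro s t h
  induction s using OnePoint.rec <;> induction t using OnePoint.rec
  · rfl
  · simp [ClosedPt.of] at h
  · simp [ClosedPt.of] at h
  · simp only [ClosedPt.of, ClosedPt.poly.injEq] at h
    have := congrArg (fun f => eval 0 f) h
    simp at this
    rw [this]

lemma deg_of {K : Type} [Field K] (t : OnePoint K) : (ClosedPt.of t).deg = 1 := by
  induction t using OnePoint.rec
  · rfl
  · simp [ClosedPt.of, ClosedPt.deg]

/-- The case of rational points. -/
lemma rational {K : Type} [Field K] [NumberField K]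
    (h1 : Mordell (pts3 K) ![2, 3, 7]) (h2 : Mordell (pts3 K) ![2, 4, 5])
    (h3 : ∀ a : K, a ≠ 0 → a ≠ 1 → Mordell (pts4 a) ![2, 2, 2, 3])
    (h4 : ∀ a b : K, a ≠ 0 → a ≠ 1 → b ≠ 0 → b ≠ 1 → a ≠ b →
      Mordell (pts5 a b) ![2, 2, 2, 2, 2])
    {κ : Type} [Fintype κ] (P : κ → OnePoint K) (m : κ → ℕ∞) (hP : Function.Injective P)
    (hm : ∀ i, 2 ≤ m i) (hs : 2 < ∑ i, wt (m i)) : Mordell P m := by
  classical
  obtain ⟨r, ⟨φ⟩⟩ : ∃ r : ℕ, Nonempty (Fin r ≃ κ) := ⟨_, ⟨(Fintype.equivFin κ).symm⟩⟩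
  refine Mordell.of_sub (φ := φ) (m' := fun j => m (φ j)) (fun j => le_rfl) ?_
  have hs' : 2 < ∑ j, wt (m (φ j)) := by
    rwa [Equiv.sum_comp φ fun i => wt (m i)]
  have hinj : Function.Injective fun j => P (φ j) := fun i j h => φ.injective (hP h)
  have hle : ∑ j, wt (m (φ j)) ≤ r := by
    calc ∑ j, wt (m (φ j)) ≤ ∑ _j : Fin r, (1 : ℝ) := Finset.sum_le_sum fun i _ => wt_le_one _
      _ = r := by simp
  have hr : 3 ≤ r := by
    by_contra hc
    have : (r : ℝ) ≤ 2 := by exact_mod_cast (by omega : r ≤ 2)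
    linarith
  rcases Nat.lt_or_ge r 5 with h5 | h5
  · obtain rfl | rfl : r = 3 ∨ r = 4 := by omega
    · exact three h1 h2 _ hinj _ (fun i => hm _) hs'
    · exact four h3 _ hinj _ (fun i => hm _) hs'
  · exact five h4 h5 _ hinj _ fun i => hm _

/-- Distinct closed points have disjoint fibres. -/
lemma fiber_disjoint {K L : Type} [Field K] [Field L] [Algebra K L] {D E : ClosedPt K}
    {x : OnePoint L} (hD : x ∈ fiber L D) (hE : x ∈ fiber L E) : D = E := by
  cases D with
  | infty =>
    have hx : x = ∞ := hD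
    subst hx
    cases E with
    | infty => rfl
    | poly g _ _ =>
      obtain ⟨β, _, hβ⟩ := hE
      exact absurd hβ (OnePoint.coe_ne_infty _)
  | poly f hf hf' =>
    obtain ⟨α, hα, rfl⟩ := hD
    cases E with
    | infty => exact absurd hE (OnePoint.coe_ne_infty _)
    | poly g hg hg' =>
      obtain ⟨β, hβ, hβα⟩ := hE
      have : β = α := OnePoint.coe_injective hβα
      subst this
      have e1 : f = minpoly K β := minpoly.eq_of_irreducible_of_monic hf' hα hf
      have e2 : g = minpoly K β := minpoly.eq_of_irreducible_of_monic hg' hβ hg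
      subst e2
      subst e1
      rfl

lemma finite_fiber {K L : Type} [Field K] [Field L] [Algebra K L] (D : ClosedPt K) :
    (fiber L D).Finite := by
  cases D with
  | infty => exact Set.finite_singleton _
  | poly f hf hf' =>
    refine Set.Finite.image _ ?_
    refine (Polynomial.rootSet_finite f L).subset ?_
    intro α hα
    rw [mem_rootSet]
    exact ⟨hf.ne_zero, hα⟩

lemma ncard_fiber {K L : Type} [Field K] [CharZero K] [Field L] [Algebra K L] {D : ClosedPt K}
    (hs : SplitsIn L D) : (fiber L D).ncard = D.deg := by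
  cases D with
  | infty => exact Set.ncard_singleton _
  | poly f hf hf' =>
    have h1 : {α : L | aeval α f = 0} = f.rootSet L := by
      ext α
      rw [mem_rootSet]
      exact ⟨fun h => ⟨hf.ne_zero, h⟩, fun h => h.2⟩
    change (OnePoint.some '' {α : L | aeval α f = 0}).ncard = f.natDegree
    rw [Set.ncard_image_of_injective _ OnePoint.coe_injective, h1, ← Nat.card_coe_set_eq,
      Nat.card_eq_fintype_card]
    exact card_rootSet_eq_natDegree hf'.separable hs

/-- **Reduction of orbifold Mordell on the projective line to four families.** -/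
theorem result :
    ((∀ (K : Type) [Field K] [NumberField K],
        MordellC (fun i => ClosedPt.of (pts3 K i)) ![2, 3, 7]) ∧
     (∀ (K : Type) [Field K] [NumberField K],
        MordellC (fun i => ClosedPt.of (pts3 K i)) ![2, 4, 5]) ∧
     (∀ (K : Type) [Field K] [NumberField K] (a : K), a ≠ 0 → a ≠ 1 →
        MordellC (fun i => ClosedPt.of (pts4 a i)) ![2, 2, 2, 3]) ∧
     (∀ (K : Type) [Field K] [NumberField K] (a b : K), a ≠ 0 → a ≠ 1 → b ≠ 0 → b ≠ 1 → a ≠ b →
        MordellC (fun i => ClosedPt.of (pts5 a b i)) ![2, 2, 2, 2, 2])) ↔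
    ∀ (K : Type) [Field K] [NumberField K] (r : ℕ) (D : Fin r → ClosedPt K) (m : Fin r → ℕ∞),
      Function.Injective D → (∀ i, 2 ≤ m i) → 0 < -2 + ∑ i, ((D i).deg : ℝ) * wt (m i) →
      MordellC D m := by
  classical
  constructor
  · rintro ⟨h1, h2, h3, h4⟩ K _ _ r D m hD hm hs
    simp only [mordellC_of_iff] at h1 h2 h3 h4
    -- the splitting field
    let pl : ClosedPt K → K[X] := fun D => match D with
      | .infty => 1
      | .poly f _ _ => f
    let Q : K[X] := ∏ i, pl (D i)
    have hQ : Q ≠ 0 := by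
      refine Finset.prod_ne_zero_iff.mpr fun i _ => ?_
      cases hDi : D i with
      | infty => simp [pl]
      | poly f hf _ => simpa [pl] using hf.ne_zero
    let L := Q.SplittingField
    have : NumberField L := NumberField.of_module_finite K L
    have hsplit : ∀ i, SplitsIn L (D i) := by
      intro i
      have hdvd : pl (D i) ∣ Q := Finset.dvd_prod_of_mem _ (Finset.mem_univ i)
      have hQs : (Q.map (algebraMap K L)).Splits := SplittingField.splits Q
      have hQ0 : Q.map (algebraMap K L) ≠ 0 := (Polynomial.map_ne_zero_iff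
        (algebraMap K L).injective).mpr hQ
      generalize D i = Di at *
      cases Di with
      | infty => trivial
      | poly f hf hf' =>
        exact hQs.of_dvd hQ0 (Polynomial.map_dvd _ hdvd)
    refine MordellC.of_base (L := L) hsplit ?_
    have : ∀ i, Fintype {x : OnePoint L // x ∈ fiber L (D i)} := fun i =>
      (finite_fiber (D i)).fintype
    refine rational (h1 L) (h2 L) (h3 L) (h4 L) _ _ ?_ (fun p => hm _) ?_
    · rintro ⟨i, x, hx⟩ ⟨j, y, hy⟩ hxy
      have hxy' : x = y := hxy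
      subst hxy'
      obtain rfl : i = j := hD (fiber_disjoint hx hy)
      rfl
    · rw [Fintype.sum_sigma]
      have : ∀ i, ∑ _x : {x : OnePoint L // x ∈ fiber L (D i)}, wt (m i)
          = ((D i).deg : ℝ) * wt (m i) := by
        intro i
        rw [Finset.sum_const, nsmul_eq_mul, Finset.card_univ, ← ncard_fiber (hsplit i),
          ← Nat.card_coe_set_eq, Nat.card_eq_fintype_card]
      simp only [this]
      linarith
  · intro h
    refine ⟨fun K _ _ => ?_, fun K _ _ => ?_, fun K _ _ a ha0 ha1 => ?_,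
      fun K _ _ a b ha0 ha1 hb0 hb1 hab => ?_⟩
    · refine h K 3 _ _ (of_injective.comp (pts3_inj K)) ?_ ?_
      · intro i
        fin_cases i <;> simp <;> norm_num
      · simp only [deg_of, Nat.cast_one, one_mul]
        rw [Fin.sum_univ_three]
        simp only [Matrix.cons_val_zero, Matrix.cons_val_one, Matrix.cons_val]
        rw [wt2, wt3, wt7]; norm_num
    · refine h K 3 _ _ (of_injective.comp (pts3_inj K)) ?_ ?_
      · intro i
        fin_cases i <;> simp <;> norm_num
      · simp only [deg_of, Nat.cast_one, one_mul]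
        rw [Fin.sum_univ_three]
        simp only [Matrix.cons_val_zero, Matrix.cons_val_one, Matrix.cons_val]
        rw [wt2, wt4, wt5]; norm_num
    · refine h K 4 _ _ (of_injective.comp (pts4_inj ha0 ha1)) ?_ ?_
      · intro i
        fin_cases i <;> simp <;> norm_num
      · simp only [deg_of, Nat.cast_one, one_mul]
        rw [Fin.sum_univ_four]
        simp only [Matrix.cons_val_zero, Matrix.cons_val_one, Matrix.cons_val]
        rw [wt2, wt3]; norm_num
    · refine h K 5 _ _ (of_injective.comp (pts5_inj ha0 ha1 hb0 hb1 hab)) ?_ ?_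
      · intro i
        fin_cases i <;> simp
      · simp only [deg_of, Nat.cast_one, one_mul]
        rw [Fin.sum_univ_five]
        simp only [Matrix.cons_val_zero, Matrix.cons_val_one, Matrix.cons_val]
        rw [wt2]; norm_num

end Pool.Agent.Results.MP_464c42_nt.GenusZeroReduction
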