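import Pool.Agent.Helper87.Camp.Proj

/-!
# A power saving for Campana points on projective space minus `n + 2` hyperplanes

Let `ℓ₀, …, ℓₙ₊₁` be integer linear forms in general position on `ℙⁿ`, with multiplicities
`μ i ∈ {1, 2, …, ∞}`, let `m ≥ 3` and let `I` be a set of at least two and at most `2 m + 2` indices
with `μ i = m` for `i ∈ I`. The number of primitive vectors of height at most `B` giving a Campana
point over `ℤ[1/S]` is `O(B ^ (∑_{i ∉ I} 1/μ i + 2 (|I| - 1) / (2 m + 1) + ε))`. If `|I| = 2` the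
points of one hyperplane have to be left out; for `n = 1` that hyperplane carries no Campana
point.
-/

set_option autoImplicit false

namespace Pool.Agent.Results.MP_464c42_nt.PowerSaving

open Pool.Agent.Helper87.Camp

theorem result (n : ℕ) (S : Finset ℕ) (L : Matrix (Fin (n + 2)) (Fin (n + 1)) ℤ)
    (hL : ∀ i, minor L i ≠ 0) (μ : Fin (n + 2) → ℕ∞) (hμ : ∀ i, 1 ≤ μ i)
    (m : ℕ) (hm : 3 ≤ m) (I : Finset (Fin (n + 2))) (hIμ : ∀ i ∈ I, μ i = m)
    (hI2 : 2 ≤ I.card) (hI : I.card ≤ 2 * m + 2) :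
    (∀ ε : ℝ, 0 < ε → ∃ C : ℝ, ∀ B : ℕ, 1 ≤ B →
      {x : Fin (n + 1) → ℤ | IsCampana S L μ x ∧ (I.card = 2 → OffDegenerate L I x) ∧
        ∀ j, |x j| ≤ B}.Finite ∧
      ({x : Fin (n + 1) → ℤ | IsCampana S L μ x ∧ (I.card = 2 → OffDegenerate L I x) ∧
        ∀ j, |x j| ≤ B}.ncard : ℝ) ≤
        C * (B : ℝ) ^ ((∑ i ∈ Iᶜ, recip (μ i)) +
          2 * ((I.card : ℝ) - 1) / (2 * (m : ℝ) + 1) + ε)) ∧
    (n = 1 → ∀ x : Fin (n + 1) → ℤ, IsCampana S L μ x → OffDegenerate L I x) := by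
  refine ⟨fun ε hε => main_bound S L hL μ hμ m hm I hIμ hI2 hI ε hε, ?_⟩
  rintro rfl x hx
  exact offDegenerate_of_line S L hL μ I x hx

end Pool.Agent.Results.MP_464c42_nt.PowerSaving
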